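import Pool.Agent.V1164.DDes.Main

/-!
# Ratios of the numbers of permutations with given double descent sets
-/

set_option autoImplicit false

namespace Pool.Agent.Results.MP_ff54ac_co.RatioLimit

open Filter Pool.Agent.V1164.DDes
open scoped Topology

/-- For finite sets `I`, `J` whose double descent counts are eventually positive, the ratio
`dd(I; n) / dd(J; n)` converges to a positive real number. -/
theorem result (I J : Finset ℕ) (_hI2 : ∀ i ∈ I, 2 ≤ i) (_hJ2 : ∀ j ∈ J, 2 ≤ j)
    (hI : ∀ᶠ n in atTop, 0 < dd I n) (hJ : ∀ᶠ n in atTop, 0 < dd J n) :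
    ∃ L : ℝ, 0 < L ∧ Tendsto (fun n => (dd I n : ℝ) / dd J n) atTop (𝓝 L) :=
  ratio I J hI hJ

end Pool.Agent.Results.MP_ff54ac_co.RatioLimit
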